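import Pool.Agent.W5h44.DS.Nor

/-!
# The hyperplane form of the KLS conjecture for unconditional sums of arbitrarily many bodies

Q1 for the bodies `{(x_1, …, x_b) | (‖x_1‖_{K_1}, …, ‖x_b‖_{K_b}) ∈ D} ⊂ ℝ^{m_1} × ⋯ × ℝ^{m_b}`, and for
their images under linear maps with kernels of bounded dimension. Here `D ⊂ ℝ^b` is an arbitrary
unconditional convex body, `K_i ⊂ ℝ^{m_i}` are arbitrary symmetric convex bodies which satisfy the
Poincare inequality with constant `c₀` in isotropic position, or unit balls of norms with many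
symmetries (1-symmetric norms, norms on real matrices which are functions of `XᵀX`, norms on symmetric or
Hermitian matrices which are invariant under conjugation), and **the number `b` of the bodies is
arbitrary**. The constant depends on `c₀`, on the dimension `q` of the kernel, and on a number `t` such
that `∑ exp(-t m_i) ≤ 1`. So it is independent of all dimensions and of `b` when all `m_i` are
at least a fixed multiple of `log b` (theorem `log_blocks`).

Known before: the starting file `CompositeBodies` contains the case of a bounded number `b` of bodies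
(with a constant which depends on `b`), `RadialBlocks` contains the case in which all `K_i`
are Euclidean balls.

Method. By polar coordinates, a random point `x` of the body has the blocks `x_i = ‖z_i‖ y_i / (r_i ‖y_i‖_{K_i})`,
where `z` is a random point of the `D`-sum of the Euclidean balls of radii `r_i` and the `y_i` are
independent random points of the bodies `K_i`. Let `f` be a Lipschitz function of a linear image of `x`.
(1) For given `z`, the variance of `f` is, by the Efron-Stein inequality, at most the sum of the variances in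
the single directions. The section of the body by the block `i`, the other blocks being fixed, is a dilate
`ρ K_i`; the variance in the direction is at most the variance for the uniform distribution on
`ρ K_i`, to which the Poincare inequality of `K_i` applies, in the affinely invariant form
`Var f ≤ A ∫∫ (D f(x) y)² dy dx`. The sum of these energies is controlled by the covariance of
the body, as long as `ρ²` is at most a multiple of the ratio of the second moments of `x_i` and of `y_i`.
(2) The sets where `ρ` is larger have total measure at most a multiple of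
`∑ exp(-t m_i - r)`: half of the volume of `ρ K_i` is near its boundary, and `‖x_i‖_{K_i}` is concentrated,
its density being `u^(m_i - 1)` times a log-concave function. (3) The mean of `f` for given `z` is a
Lipschitz function of `z`, for the Euclidean distance, when the radii `r_i` are chosen such that `z` is
isotropic; it is controlled by the weak Poincare inequality for rotation invariant measures on
`∏ ℝ^{m_i}` of the modules `TH610.RB`. (4) From the concentration of all linear images to the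
isoperimetric inequality for sets of measure one half, and to projections: modules `Y506.PV` of the
file `ImagesOfSections`, `R751.MB` of `CompositeBodies`.
-/

set_option autoImplicit false

namespace Pool.Agent.Results.MP_dc1397_gt.ManySummands

open MeasureTheory Set
open scoped ENNReal InnerProductSpace Pointwise

/-- Euclidean space of dimension `n` -/
abbrev Euc (n : ℕ) : Type := EuclideanSpace ℝ (Fin n)

/-- real `m × l` matrices, with the Euclidean structure of `ℝ^(ml)` -/
abbrev Mat (m l : ℕ) : Type := EuclideanSpace ℝ (Fin m × Fin l)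

/-- norms -/
structure IsNorm {κ : Type} [Fintype κ] (N : EuclideanSpace ℝ κ → ℝ) : Prop where
  add_le : ∀ x y, N (x + y) ≤ N x + N y
  smul : ∀ (r : ℝ) (x : EuclideanSpace ℝ κ), N (r • x) = |r| * N x
  pos : ∀ x, x ≠ 0 → 0 < N x

/-- `N` does not change when coordinates are permuted or change their signs -/
def OneSymmetric {k : ℕ} (N : Euc k → ℝ) : Prop :=
  ∀ σ : Equiv.Perm (Fin k), ∀ x y : Euc k, (∀ i, |y i| = |x (σ i)|) → N y = N x

/-- `N (g X) = N X` for all orthogonal matrices `g` -/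
def LeftInvariant {m l : ℕ} (N : Mat m l → ℝ) : Prop :=
  ∀ g ∈ Matrix.orthogonalGroup (Fin m) ℝ, ∀ X : Mat m l,
    N (WithLp.toLp 2 fun p => ∑ k, g p.1 k * X (k, p.2)) = N X

/-- `Φ` is a linear isometric parametrisation of the Hermitian `D × D` matrices over `𝕜` (`ℝ` or `ℂ`),
with the Hilbert-Schmidt norm, by `ℝ^ι` -/
structure HermFrame {𝕜 : Type} [RCLike 𝕜] {D : ℕ} {ι : Type} [Fintype ι]
    (Φ : EuclideanSpace ℝ ι →ₗ[ℝ] Matrix (Fin D) (Fin D) 𝕜) : Prop where
  herm : ∀ x, (Φ x).conjTranspose = Φ x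
  surj : ∀ A : Matrix (Fin D) (Fin D) 𝕜, A.conjTranspose = A → ∃ x, Φ x = A
  iso : ∀ x, ∑ i, ∑ j, ‖Φ x i j‖ ^ 2 = ‖x‖ ^ 2

/-- `N` does not change when the matrix `Φ x` is conjugated by a unitary matrix -/
def ConjInvariant {𝕜 : Type} [RCLike 𝕜] {D : ℕ} {ι : Type} [Fintype ι]
    (Φ : EuclideanSpace ℝ ι →ₗ[ℝ] Matrix (Fin D) (Fin D) 𝕜) (N : EuclideanSpace ℝ ι → ℝ) : Prop :=
  ∀ U ∈ Matrix.unitaryGroup (Fin D) 𝕜, ∀ x y : EuclideanSpace ℝ ι,
    Φ y = U * Φ x * U.conjTranspose → N y = N x

/-- The norms on `ℝ^k` which are admitted: 1-symmetric norms, and, in any linear coordinates, left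
invariant norms on `m × l` matrices, `1 ≤ l ≤ m`, `3 ≤ m`, and conjugation invariant norms on Hermitian
matrices of order at least 3. -/
inductive Admissible : ∀ k : ℕ, (Euc k → ℝ) → Prop
  | oneSymmetric (k : ℕ) (N : Euc k → ℝ) : 1 ≤ k → IsNorm N → OneSymmetric N → Admissible k N
  | matrices (m l k : ℕ) (e : Mat m l ≃ₗ[ℝ] Euc k) (N : Mat m l → ℝ) : 3 ≤ m → 1 ≤ l → l ≤ m →
      IsNorm N → LeftInvariant N → Admissible k fun z => N (e.symm z)
  | hermitian (𝕜 : Type) [RCLike 𝕜] (D : ℕ) (ι : Type) [Fintype ι]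
      (Φ : EuclideanSpace ℝ ι →ₗ[ℝ] Matrix (Fin D) (Fin D) 𝕜) (k : ℕ)
      (e : EuclideanSpace ℝ ι ≃ₗ[ℝ] Euc k) (N : EuclideanSpace ℝ ι → ℝ) : 3 ≤ D → HermFrame Φ →
      IsNorm N → ConjInvariant Φ N → Admissible k fun z => N (e.symm z)

/-- convex bodies: compact, convex, with nonempty interior -/
structure IsBody {κ : Type} [Fintype κ] (K : Set (EuclideanSpace ℝ κ)) : Prop where
  comp : IsCompact K
  conv : Convex ℝ K
  int : (interior K).Nonempty

/-- the uniform probability measure on `K` -/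
noncomputable def unif {m : ℕ} (K : Set (Euc m)) : Measure (Euc m) :=
  (volume K)⁻¹ • volume.restrict K

/-- convex bodies which satisfy the Poincaré inequality `Var f ≤ c₀ E ‖∇ f‖²`, for all `C¹` functions,
in isotropic position: after some linear bijection `A` which makes all variances of the coordinates
in directions of length one equal to one -/
structure PoincareBody (c₀ : ℝ) {N : ℕ} (C : Set (Euc N)) : Prop extends IsBody C where
  ineq : ∃ A : Euc N ≃ₗ[ℝ] Euc N,
    (∀ θ : Euc N, ProbabilityTheory.variance (fun x => ⟪A x, θ⟫_ℝ) (unif C) = ‖θ‖ ^ 2) ∧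
    ∀ f : Euc N → ℝ, ContDiff ℝ 1 f → ProbabilityTheory.variance (fun x => f (A x)) (unif C) ≤
      c₀ * ∫ x, ‖fderiv ℝ f (A x)‖ ^ 2 ∂(unif C)

/-- unconditional convex bodies `D ⊂ ℝ^b` -/
structure Unconditional {b : ℕ} (D : Set (Euc b)) : Prop extends IsBody D where
  unc : ∀ t ∈ D, ∀ s : Euc b, (∀ i, |s i| ≤ |t i|) → s ∈ D

/-- The `D`-sum `{x | x_i ∈ t_i K_i for all i, for some t ∈ D}` of the sets `K_i`; for symmetric convex
bodies `K_i` and unconditional `D` it is `{x | (‖x_i‖_{K_i})_i ∈ D}`. -/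
def dSum {b : ℕ} {m : Fin b → ℕ} (D : Set (Euc b)) (K : ∀ i, Set (Euc (m i))) :
    Set (∀ i, Euc (m i)) := {x | ∃ t ∈ D, ∀ i, x i ∈ t i • K i}

/-- the blocks: convex bodies which satisfy the Poincaré inequality with constant `c₀` in isotropic
position, and unit balls of admissible norms -/
inductive Block (c₀ : ℝ) {k : ℕ} (K : Set (Euc k)) : Prop
  | poincare : PoincareBody c₀ K → Block c₀ K
  | unitBall (N : Euc k → ℝ) : Admissible k N → K = {x | N x ≤ 1} → Block c₀ K

/-- the Lebesgue measure of a Euclidean space -/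
noncomputable def lebesgue (F : Type) [NormedAddCommGroup F] [InnerProductSpace ℝ F]
    [FiniteDimensional ℝ F] [MeasurableSpace F] [BorelSpace F] : Measure F := volume

/-- the Lebesgue measure (of the Euclidean space `W`) of the section `Ω ∩ W` by a subspace `W` -/
noncomputable def areaIn {F : Type} [NormedAddCommGroup F] [InnerProductSpace ℝ F]
    [FiniteDimensional ℝ F] [MeasurableSpace F] [BorelSpace F] (W : Submodule ℝ F) (Ω : Set F) :
    ℝ≥0∞ := lebesgue W {y : W | (y : F) ∈ Ω}

section defs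

variable {κ : Type} [Fintype κ]

open Classical in
/-- divergence of a vector field on `ℝ^κ` -/
noncomputable def divergence (X : EuclideanSpace ℝ κ → EuclideanSpace ℝ κ)
    (x : EuclideanSpace ℝ κ) : ℝ :=
  ∑ i, fderiv ℝ X x (EuclideanSpace.single i 1) i

/-- `C¹` vector fields with compact support in `Ω` and `‖X‖ ≤ 1` -/
structure Test (Ω : Set (EuclideanSpace ℝ κ)) (X : EuclideanSpace ℝ κ → EuclideanSpace ℝ κ) :
    Prop where
  diff : ContDiff ℝ 1 X
  comp : HasCompactSupport X
  sub : tsupport X ⊆ Ω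
  le : ∀ x, ‖X x‖ ≤ 1

/-- the (De Giorgi) perimeter `P(E; Ω)` of `E` relative to the open set `Ω` -/
noncomputable def perimeter (E Ω : Set (EuclideanSpace ℝ κ)) : ℝ≥0∞ :=
  ⨆ (X : EuclideanSpace ℝ κ → EuclideanSpace ℝ κ) (_ : Test Ω X),
    ENNReal.ofReal (∫ x in E, divergence X x)

/-- the area (Lebesgue measure in the hyperplane `a^⊥`) of the central section of `Ω` by `a^⊥` -/
noncomputable def sectionArea (Ω : Set (EuclideanSpace ℝ κ)) (a : EuclideanSpace ℝ κ) : ℝ≥0∞ :=
  areaIn (Submodule.span ℝ {a})ᗮ Ω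

/-- some central hyperplane section has area at most `C P(E; Ω)` for every measurable `E ⊆ Ω` with
`|E| = |Ω| / 2` -/
def HyperplaneBound (C : ℝ) (Ω : Set (EuclideanSpace ℝ κ)) : Prop :=
  ∃ a : EuclideanSpace ℝ κ, a ≠ 0 ∧ ∀ E : Set (EuclideanSpace ℝ κ), MeasurableSet E → E ⊆ Ω →
    volume E = volume Ω / 2 → sectionArea Ω a ≤ ENNReal.ofReal C * perimeter E Ω

/-- the perimeter is the one used in the proof -/
theorem perimeter_eq (E Ω : Set (EuclideanSpace ℝ κ)) :
    Pool.Agent.W695.KH.per E Ω = perimeter E Ω := by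
  unfold perimeter Pool.Agent.W695.KH.per
  refine iSup_congr fun X => ?_
  refine iSup_congr_Prop ⟨fun h => ⟨h.1, h.2.1, h.2.2.1, h.2.2.2⟩,
    fun h => ⟨h.diff, h.comp, h.sub, h.le⟩⟩ fun _ => rfl

end defs

theorem nrm_of {κ : Type} [Fintype κ] {N : EuclideanSpace ℝ κ → ℝ} (h : IsNorm N) :
    Pool.Agent.R751.MB.Nrm N := ⟨h.add_le, h.smul, h.pos⟩

theorem an_of {k : ℕ} {N : Euc k → ℝ} (h : Admissible k N) : Pool.Agent.R751.MB.AN k N := by
  cases h with
  | oneSymmetric _ _ hk hN hinv => exact .sym _ _ hk (nrm_of hN) hinv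
  | matrices m l _ e N hm hl hlm hN hinv => exact .mat m l k e N hm hl hlm (nrm_of hN) hinv
  | hermitian 𝕜 D ι Φ _ e N hD hΦ hN hinv =>
    exact .her 𝕜 D ι Φ k e N hD ⟨hΦ.herm, hΦ.surj, hΦ.iso⟩ (nrm_of hN) hinv

theorem var_eq {n : ℕ} {K : Set (Euc n)} (hK : IsCompact K) (hi : (interior K).Nonempty)
    {f : Euc n → ℝ} (hf : Continuous f) : ProbabilityTheory.variance f (unif K) =
      (∫ x, f x ^ 2 ∂(unif K)) - (∫ x, f x ∂(unif K)) ^ 2 := by
  have h0 : volume K ≠ 0 := Pool.Agent.R755.KF.vol_ne hi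
  have hp : IsProbabilityMeasure (unif K) :=
    Pool.Agent.R754.KG.un_prob h0 hK.measure_lt_top.ne
  have h2 : Integrable (fun x => f x ^ 2) (unif K) :=
    Pool.Agent.R754.KG.un_int h0 hK.isBounded (hf.pow 2)
  rw [ProbabilityTheory.variance_eq_sub
    ((memLp_two_iff_integrable_sq hf.aestronglyMeasurable).2 h2)]
  rfl

theorem pi_of {c₀ : ℝ} {N : ℕ} {C : Set (Euc N)} (h : PoincareBody c₀ C) :
    Pool.Agent.R755.KF.PI c₀ C := by
  obtain ⟨A, h1, h2⟩ := h.ineq
  have hAc : Continuous A := A.toLinearMap.continuous_of_finiteDimensional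
  refine ⟨h.comp, h.conv, h.int, A, fun θ => ?_, fun f hf => ?_⟩
  · have h3 := h1 θ
    rw [var_eq h.comp h.int (by fun_prop)] at h3
    exact h3
  · have h3 := h2 f hf
    rw [var_eq h.comp h.int (f := fun x => f (A x)) (hf.continuous.comp hAc)] at h3
    exact h3

theorem body_of {κ : Type} [Fintype κ] {K : Set (EuclideanSpace ℝ κ)} (h : IsBody K) :
    Pool.Agent.R751.MB.Body K := ⟨h.comp, h.conv, h.int⟩

theorem bk_of {c₀ : ℝ} {k : ℕ} {K : Set (Euc k)} (h : Block c₀ K) :
    Pool.Agent.W5h44.DS.Bk c₀ K := by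
  cases h with
  | poincare hK => exact Or.inl (pi_of hK)
  | unitBall N hN hK => exact Or.inr ⟨N, an_of hN, hK⟩

theorem finrank_eq {b : ℕ} (m : Fin b → ℕ) :
    Module.finrank ℝ (∀ i, Euc (m i)) = Module.finrank ℝ (Euc (∑ i, m i)) := by
  rw [Module.finrank_pi_fintype, finrank_euclideanSpace_fin]
  exact Finset.sum_congr rfl fun i _ => finrank_euclideanSpace_fin

/-- the class of the sums, for the constants `c₀` and `t` -/
def Cls (c₀ t : ℝ) (n : ℕ) (P : Set (Euc n)) : Prop :=
  ∃ (b : ℕ) (m : Fin b → ℕ) (e : (∀ i, Euc (m i)) ≃ₗ[ℝ] Euc n) (D : Set (Euc b))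
    (K : ∀ i, Set (Euc (m i))), (∀ i, 1 ≤ m i) ∧ Unconditional D ∧ (∀ i, ∀ x ∈ K i, -x ∈ K i) ∧
    (∀ i, Block c₀ (K i)) ∧ ∑ i, Real.exp (-(t * m i)) ≤ 1 ∧ P = e '' dSum D K

theorem ccl (c₀ t : ℝ) : Pool.Agent.R751.MB.CCl (Cls c₀ t) := by
  intro δ hδ
  obtain ⟨κ, hκ, H⟩ := Pool.Agent.W5h44.DS.cc_many (c0 := max c₀ 0) (T := max t 0) (le_max_right _ _)
    (le_max_right _ _) hδ
  refine ⟨κ, hκ, fun n P _ hP => ?_⟩
  obtain ⟨b, m, e, D, K, hm, hD, hs, hK, ht, rfl⟩ := hP
  refine H b n m e D K hm ⟨body_of hD.toIsBody, hD.unc⟩ hs (fun i => ?_) ?_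
  · rcases bk_of (hK i) with h | h
    · exact Or.inl (Pool.Agent.R751.MB.pi_mono (le_max_left _ _) h)
    · exact Or.inr h
  · refine le_trans (Finset.sum_le_sum fun i _ => ?_) ht
    rw [Real.exp_le_exp]
    have h1 : t * m i ≤ max t 0 * m i := mul_le_mul_of_nonneg_right (le_max_left _ _) (by positivity)
    linarith

/-- **The hyperplane conjecture for unconditional sums of arbitrarily many symmetric bodies.** For all
`c₀`, `t`, `q` there is a constant `C > 0` such that the following holds for all numbers `b`,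
all dimensions `n, m_1, …, m_b ≥ 1` with `∑ exp(-t m_i) ≤ 1`, all unconditional convex bodies
`D ⊂ ℝ^b`, all symmetric convex bodies `K_i ⊂ ℝ^{m_i}` which satisfy the Poincare inequality with
constant `c₀` in isotropic position or are unit balls of admissible norms, and all surjective linear
maps `T : ℝ^{m_1} × ⋯ × ℝ^{m_b} → ℝ^n` with kernels of dimension at most `q`. The interior `Ω` of the
image under `T` of `{x | (‖x_i‖_{K_i})_i ∈ D}` has a central hyperplane section `Ω ∩ a^⊥` with
`H_{n-1}(Ω ∩ a^⊥) ≤ C P(E; Ω)` for every measurable `E ⊆ Ω` with `|E| = |Ω| / 2`. -/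
theorem result : ∀ (c₀ t : ℝ) (q : ℕ), ∃ C : ℝ, 0 < C ∧
    ∀ (b n : ℕ) (m : Fin b → ℕ) (T : (∀ i, Euc (m i)) →ₗ[ℝ] Euc n) (D : Set (Euc b))
      (K : ∀ i, Set (Euc (m i))), 1 ≤ n → (∀ i, 1 ≤ m i) → ∑ i, Real.exp (-(t * m i)) ≤ 1 →
      ∑ i, m i ≤ n + q → Function.Surjective T → Unconditional D →
      (∀ i, ∀ x ∈ K i, -x ∈ K i) → (∀ i, Block c₀ (K i)) →
      HyperplaneBound C (interior (T '' dSum D K)) := by
  intro c₀ t q
  obtain ⟨c, hc, H⟩ := Pool.Agent.R751.MB.star_gen (ccl c₀ t) q
  obtain ⟨C, hC, H'⟩ := Pool.Agent.Y151.PV.hyp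
  refine ⟨C * c, by positivity, fun b n m T D K hn hm ht hq hT hD hs hK => ?_⟩
  obtain ⟨e⟩ : Nonempty ((∀ i, Euc (m i)) ≃ₗ[ℝ] Euc (∑ i, m i)) := by
    exact ⟨LinearEquiv.ofFinrankEq _ _ (finrank_eq m)⟩
  have hP : Cls c₀ t (∑ i, m i) (e '' dSum D K) := ⟨b, m, e, D, K, hm, hD, hs, hK, ht, rfl⟩
  have himg : T '' dSum D K = (T ∘ₗ e.symm.toLinearMap).toAffineMap '' (e '' dSum D K) := by
    rw [image_image]
    refine image_congr fun x _ => ?_
    simp
  obtain ⟨P, hPe⟩ : ∃ P, P = T '' dSum D K := ⟨_, rfl⟩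
  obtain ⟨h1, h2, h3, h4⟩ := H (∑ i, m i) n _ (T ∘ₗ e.symm.toLinearMap).toAffineMap hn hq hP
    (by
      intro y
      obtain ⟨x, hx⟩ := hT y
      exact ⟨e x, by simpa using hx⟩)
  rw [← himg, ← hPe] at h1 h2 h3 h4
  rw [← hPe]
  have hsy : ∀ x ∈ P, -x ∈ P := by
    rw [hPe]
    rintro _ ⟨x, ⟨τ, hτ, hx⟩, rfl⟩
    refine ⟨-x, ⟨τ, hτ, fun i => ?_⟩, map_neg T x⟩
    obtain ⟨y, hy, hxy⟩ := hx i
    refine ⟨-y, hs i y hy, ?_⟩
    rw [Pi.neg_apply, ← hxy]
    exact smul_neg _ _
  have hcl : closure (interior P) = P := by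
    rw [h2.closure_interior_eq_closure_of_nonempty_interior h3, h1.isClosed.closure_eq]
  have hsi : ∀ x ∈ interior P, -x ∈ interior P := by
    intro x hx
    have hop : IsOpen ((fun y => -y) ⁻¹' interior P) := isOpen_interior.preimage continuous_neg
    have hsub : (fun y => -y) ⁻¹' interior P ⊆ P := by
      intro y hy
      have := hsy _ (interior_subset hy)
      rwa [neg_neg] at this
    exact interior_maximal hsub hop (by simpa using hx)
  have h0 : (0 : Euc n) ∈ interior P := by
    obtain ⟨x, hx⟩ := h3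
    have h := h2.interior hx (hsi x hx) (by norm_num : (0 : ℝ) ≤ 1 / 2)
      (by norm_num : (0 : ℝ) ≤ 1 / 2) (by norm_num)
    rwa [smul_neg, add_neg_cancel] at h
  obtain ⟨a, ha, h⟩ := H' n hn (interior P) isOpen_interior h2.interior
    (h1.isBounded.subset interior_subset) h0 hsi c hc (by rw [hcl]; exact h4)
  refine ⟨a, ha, fun E hE hEΩ hvol => ?_⟩
  rw [← perimeter_eq]
  by_cases hp : Pool.Agent.W695.KH.per E (interior P) = ⊤
  · rw [hp, ENNReal.mul_top (ENNReal.ofReal_pos.2 (by positivity)).ne']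
    exact le_top
  · refine (h E hE hEΩ hvol _ (Pool.Agent.W695.KH.perLe_toReal E _ hp)).trans (le_of_eq ?_)
    rw [ENNReal.ofReal_mul (by positivity), ENNReal.ofReal_toReal hp]

/-! ### special cases -/

theorem sum_exp_le {b : ℕ} {m : Fin b → ℕ} {t : ℝ} (h : ∀ i, Real.log b ≤ t * m i) :
    ∑ i, Real.exp (-(t * m i)) ≤ 1 := by
  rcases Nat.eq_zero_or_pos b with rfl | hb
  · simp
  have hb' : (0 : ℝ) < b := by exact_mod_cast hb
  calc ∑ i, Real.exp (-(t * m i)) ≤ ∑ _i : Fin b, (b : ℝ)⁻¹ := by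
        refine Finset.sum_le_sum fun i _ => ?_
        rw [← Real.exp_log (inv_pos.2 hb'), Real.exp_le_exp, Real.log_inv]
        linarith [h i]
    _ = 1 := by
        rw [Finset.sum_const, Finset.card_univ, Fintype.card_fin, nsmul_eq_mul,
          mul_inv_cancel₀ hb'.ne']

/-- **Blocks whose dimensions are at least a multiple of `log b`.** For all `c₀`, `t` there is a
constant `C > 0` such that the unconditional sums of any number `b` of symmetric convex bodies with the
Poincare constant `c₀`, of dimensions `m_i ≥ (log b) / t`, satisfy the inequality. -/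
theorem log_blocks : ∀ c₀ t : ℝ, ∃ C : ℝ, 0 < C ∧
    ∀ (b n : ℕ) (m : Fin b → ℕ) (e : (∀ i, Euc (m i)) ≃ₗ[ℝ] Euc n) (D : Set (Euc b))
      (K : ∀ i, Set (Euc (m i))), 1 ≤ n → (∀ i, 1 ≤ m i) → (∀ i, Real.log b ≤ t * m i) →
      Unconditional D → (∀ i, ∀ x ∈ K i, -x ∈ K i) → (∀ i, Block c₀ (K i)) →
      HyperplaneBound C (interior (e '' dSum D K)) := by
  intro c₀ t
  obtain ⟨C, hC, H⟩ := result c₀ t 0
  refine ⟨C, hC, fun b n m e D K hn hm ht hD hs hK => ?_⟩
  refine H b n m e.toLinearMap D K hn hm (sum_exp_le ht) ?_ e.surjective hD hs hK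
  have h1 := e.finrank_eq
  rw [finrank_eq, finrank_euclideanSpace_fin, finrank_euclideanSpace_fin] at h1
  omega

end Pool.Agent.Results.MP_dc1397_gt.ManySummands
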